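import Pool.Agent.Helper12.MA.StB
import Pool.Agent.Helper12.MA.Lib

/-!
# Project MA (MP_d63854_co), module CFG: the four faces at `z`
-/

set_option autoImplicit false

namespace Pool.Agent.Helper81.MA

open Pool.Agent.Helper12.MA
open Pool.Agent.Helper51.AJ (IsMinor Planar Apex ExMinor Con Tch)
open Pool.Agent.Helper12.NK (rst Kc add cnt Pcy IsFace Cof plus)

variable {V : Type}

/-- the two faces at the edge `z a` -/
private theorem ed [Finite V] (hFAX : StFAX) (hFNB : StFNB) {M : SimpleGraph V} {U : Set V} (hP : Pn M U)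
    {z a b0 r r' : V} (hz : z ∈ U) (ha : a ∈ U) (hza : M.Adj z a)
    (hn : ∀ c ∈ U, M.Adj z c → c = a ∨ c = b0 ∨ c = r ∨ c = r') (hc : ¬ Cof M U a b0) :
    ∃ f g : Set V, IsFace M U f ∧ IsFace M U g ∧ z ∈ f ∧ a ∈ f ∧ r ∈ f ∧ z ∈ g ∧ a ∈ g ∧ r' ∈ g ∧
      (∀ c ∈ f, M.Adj z c → c = a ∨ c = r) ∧ (∀ c ∈ g, M.Adj z c → c = a ∨ c = r') ∧
      ∀ F, IsFace M U F → z ∈ F → a ∈ F → F = f ∨ F = g := by
  obtain ⟨h1, h2, -, -, h5, -⟩ := hFNB V M U hP
  obtain ⟨F, F', hF, hF', hne, hzF, haF, hzF', haF', hall⟩ := h1 z hz a ha hza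
  have key : ∀ E, IsFace M U E → z ∈ E → a ∈ E →
      (r ∈ E ∧ r ≠ a ∧ M.Adj z r ∧ ∀ c ∈ E, M.Adj z c → c = a ∨ c = r) ∨
      (r' ∈ E ∧ r' ≠ a ∧ M.Adj z r' ∧ ∀ c ∈ E, M.Adj z c → c = a ∨ c = r') := by
    intro E hE hzE haE
    obtain ⟨b, hbE, hba, hzb, hb⟩ := h2 z hz a ha hza E hE hzE haE
    have hbU : b ∈ U := (hFAX V M U E hE).1 hbE
    rcases hn b hbU hzb with h | h | h | h
    · exact absurd h hba
    · subst h
      exact absurd ⟨E, hE, haE, hbE⟩ hc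
    · subst h
      exact Or.inl ⟨hbE, hba, hzb, hb⟩
    · subst h
      exact Or.inr ⟨hbE, hba, hzb, hb⟩
  have hzane : z ≠ a := M.ne_of_adj hza
  rcases key F hF hzF haF with ⟨k1, k2, k3, k4⟩ | ⟨k1, k2, k3, k4⟩ <;>
    rcases key F' hF' hzF' haF' with ⟨l1, l2, l3, l4⟩ | ⟨l1, l2, l3, l4⟩
  · exact absurd (h5 F F' hF hF' z a r hzF haF k1 hzF' haF' l1 hzane k2.symm (M.ne_of_adj k3)) hne
  · exact ⟨F, F', hF, hF', hzF, haF, k1, hzF', haF', l1, k4, l4, hall⟩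
  · exact ⟨F', F, hF', hF, hzF', haF', l1, hzF, haF, k1, l4, k4, fun E hE h h' => (hall E hE h h').symm⟩
  · exact absurd (h5 F F' hF hF' z a r' hzF haF k1 hzF' haF' l1 hzane k2.symm (M.ne_of_adj k3)) hne

/-- two different faces with two common vertices have no further common vertex -/
private theorem int2 [Finite V] (hFNB : StFNB) {M : SimpleGraph V} {U : Set V} (hP : Pn M U) {f g : Set V}
    (hf : IsFace M U f) (hg : IsFace M U g) (hfg : f ≠ g) {x y : V} (hxy : x ≠ y) (hxf : x ∈ f) (hyf : y ∈ f)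
    (hxg : x ∈ g) (hyg : y ∈ g) : f ∩ g = {x, y} := by
  obtain ⟨-, -, -, -, h5, -⟩ := hFNB V M U hP
  ext t
  simp only [Set.mem_inter_iff, Set.mem_insert_iff, Set.mem_singleton_iff]
  constructor
  · rintro ⟨h1, h2⟩
    by_contra hcon
    push Not at hcon
    exact hfg (h5 f g hf hg x y t hxf hyf h1 hxg hyg h2 hxy (Ne.symm hcon.2) (Ne.symm hcon.1))
  · rintro (h | h)
    · subst h
      exact ⟨hxf, hxg⟩
    · subst h
      exact ⟨hyf, hyg⟩

/-- two faces at `z` with different neighbours of `z` -/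
private theorem int1 [Finite V] (hFNB : StFNB) {M : SimpleGraph V} {U : Set V} (hP : Pn M U) {f g : Set V}
    (hf : IsFace M U f) (hg : IsFace M U g) {z a b c d : V} (hzf : z ∈ f) (hzg : z ∈ g) (hcg : c ∈ g)
    (hzc : M.Adj z c) (h1 : ∀ t ∈ f, M.Adj z t → t = a ∨ t = b) (h2 : ∀ t ∈ g, M.Adj z t → t = c ∨ t = d)
    (hac : a ≠ c) (had : a ≠ d) (hbc : b ≠ c) (hbd : b ≠ d) : f ∩ g = {z} := by
  obtain ⟨-, -, -, h4, -, -⟩ := hFNB V M U hP
  ext t
  simp only [Set.mem_inter_iff, Set.mem_singleton_iff]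
  constructor
  · rintro ⟨k1, k2⟩
    by_contra hcon
    by_cases hadj : M.Adj z t
    · rcases h1 t k1 hadj with h | h <;> rcases h2 t k2 hadj with h' | h'
      · exact hac (h.symm.trans h')
      · exact had (h.symm.trans h')
      · exact hbc (h.symm.trans h')
      · exact hbd (h.symm.trans h')
    · have he := h4 f g hf hg z t hzf k1 hzg k2 (Ne.symm hcon) hadj
      subst he
      rcases h1 c hcg hzc with h | h
      · exact hac h.symm
      · exact hbc h.symm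
  · intro h
    subst h
    exact ⟨hzf, hzg⟩

theorem hCFG : StFAX → StFNB → StBAS → StCFG := by
  intro hFAX hFNB hBAS V _ G z v p q r r' hB hD
  obtain ⟨-, -, -, -, b5, -, b7⟩ := hBAS V G hB
  have hP : Pn (dl G p q) {v}ᶜ := ⟨b5 v p q, hD.pl⟩
  obtain ⟨n1, n2, n3, n4, n5, n6, n7, n8, n9, n10⟩ := hD.ne
  have hnpq : ¬ Cof (dl G p q) {v}ᶜ p q := b7 v p q hD.pq ⟨n1, n2, hD.pl⟩
  have hnqp : ¬ Cof (dl G p q) {v}ᶜ q p := fun ⟨F, h, h1, h2⟩ => hnpq ⟨F, h, h2, h1⟩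
  have gv : G.Adj z v := (hD.nb v).2 (Or.inl rfl)
  have gp : G.Adj z p := (hD.nb p).2 (Or.inr (Or.inl rfl))
  have gq : G.Adj z q := (hD.nb q).2 (Or.inr (Or.inr (Or.inl rfl)))
  have gr : G.Adj z r := (hD.nb r).2 (Or.inr (Or.inr (Or.inr (Or.inl rfl))))
  have gs : G.Adj z r' := (hD.nb r').2 (Or.inr (Or.inr (Or.inr (Or.inr rfl))))
  have zv : z ≠ v := G.ne_of_adj gv
  have zp : z ≠ p := G.ne_of_adj gp
  have zq : z ≠ q := G.ne_of_adj gq
  have zr : z ≠ r := G.ne_of_adj gr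
  have zs : z ≠ r' := G.ne_of_adj gs
  have mk' : ∀ c, G.Adj z c → (dl G p q).Adj z c := fun c h => ⟨h, fun k => zp k.1, fun k => zq k.1⟩
  have hzU : z ∈ ({v}ᶜ : Set V) := zv
  have hpU : p ∈ ({v}ᶜ : Set V) := fun h => n1 (Set.mem_singleton_iff.1 h).symm
  have hqU : q ∈ ({v}ᶜ : Set V) := fun h => n2 (Set.mem_singleton_iff.1 h).symm
  have hrU : r ∈ ({v}ᶜ : Set V) := fun h => n3 (Set.mem_singleton_iff.1 h).symm
  have hn : ∀ c ∈ ({v}ᶜ : Set V), (dl G p q).Adj z c → c = p ∨ c = q ∨ c = r ∨ c = r' := by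
    intro c hc h
    rcases (hD.nb c).1 h.1 with k | k | k | k | k
    · exact absurd k hc
    · exact Or.inl k
    · exact Or.inr (Or.inl k)
    · exact Or.inr (Or.inr (Or.inl k))
    · exact Or.inr (Or.inr (Or.inr k))
  have hn' : ∀ c ∈ ({v}ᶜ : Set V), (dl G p q).Adj z c → c = q ∨ c = p ∨ c = r ∨ c = r' := by
    intro c hc h
    rcases hn c hc h with k | k | k | k
    · exact Or.inr (Or.inl k)
    · exact Or.inl k
    · exact Or.inr (Or.inr (Or.inl k))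
    · exact Or.inr (Or.inr (Or.inr k))
  obtain ⟨f1, f4, i1, i4, z1, p1, r1, z4, p4, s4, m1, m4, a14⟩ :=
    ed hFAX hFNB hP hzU hpU (mk' p gp) hn hnpq
  obtain ⟨f2, f3, i2, i3, z2, q2, r2, z3, q3, s3, m2, m3, a23⟩ :=
    ed hFAX hFNB hP hzU hqU (mk' q gq) hn' hnqp
  have hq1 : q ∉ f1 := fun h => hnpq ⟨f1, i1, p1, h⟩
  have hq4 : q ∉ f4 := fun h => hnpq ⟨f4, i4, p4, h⟩
  have e12 : f1 ≠ f2 := fun h => hq1 (h ▸ q2)
  have e34 : f3 ≠ f4 := fun h => hq4 (h ▸ q3)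
  have e23 : f2 ≠ f3 := by
    intro h
    rcases m2 r' (h ▸ s3) (mk' r' gs) with k | k
    · exact n9 k.symm
    · exact n10 k.symm
  have e41 : f4 ≠ f1 := by
    intro h
    rcases m1 r' (h ▸ s4) (mk' r' gs) with k | k
    · exact n7 k.symm
    · exact n10 k.symm
  refine ⟨f1, f2, f3, f4, hB, hD, i1, i2, i3, i4, z1, z2, z3, z4, p1, r1, r2, q2, q3, s3, s4, p4,
    int2 hFNB hP i1 i2 e12 zr z1 r1 z2 r2, int2 hFNB hP i2 i3 e23 zq z2 q2 z3 q3,
    int2 hFNB hP i3 i4 e34 zs z3 s3 z4 s4, int2 hFNB hP i4 i1 e41 zp z4 p4 z1 p1,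
    int1 hFNB hP i1 i3 z1 z3 q3 (mk' q gq) m1 m3 n5 n7 n8.symm n10,
    int1 hFNB hP i2 i4 z2 z4 p4 (mk' p gp) m2 m4 n5.symm n9 n6.symm n10, ?_, hnpq⟩
  intro f hf hzf
  by_cases hpf : p ∈ f
  · rcases a14 f hf hzf hpf with h | h
    · exact Or.inl h
    · exact Or.inr (Or.inr (Or.inr h))
  by_cases hqf : q ∈ f
  · rcases a23 f hf hzf hqf with h | h
    · exact Or.inr (Or.inl h)
    · exact Or.inr (Or.inr (Or.inl h))
  obtain ⟨g1, -, -, g4, -, -⟩ := hFAX V (dl G p q) {v}ᶜ f hf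
  obtain ⟨a, haf, b, hbf, hab, -, -, hab2⟩ := g4 z hzf
  have ha : a = r ∨ a = r' := by
    rcases hn a (g1 haf) ((hab2 a haf).2 (Or.inl rfl)) with k | k | k | k
    · exact absurd (k ▸ haf) hpf
    · exact absurd (k ▸ haf) hqf
    · exact Or.inl k
    · exact Or.inr k
  have hb : b = r ∨ b = r' := by
    rcases hn b (g1 hbf) ((hab2 b hbf).2 (Or.inr rfl)) with k | k | k | k
    · exact absurd (k ▸ hbf) hpf
    · exact absurd (k ▸ hbf) hqf
    · exact Or.inl k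
    · exact Or.inr k
  have hrf : r ∈ f := by
    rcases ha with k | k
    · exact k ▸ haf
    · rcases hb with l | l
      · exact l ▸ hbf
      · exact absurd (k.trans l.symm) hab
  obtain ⟨h1, -, -, -, -, -⟩ := hFNB V (dl G p q) {v}ᶜ hP
  obtain ⟨F, F', -, -, -, -, -, -, -, hall⟩ := h1 z hzU r hrU (mk' r gr)
  rcases hall f1 i1 z1 r1 with k1 | k1 <;> rcases hall f2 i2 z2 r2 with k2 | k2 <;>
    rcases hall f hf hzf hrf with k3 | k3
  · exact absurd (k1.trans k2.symm) e12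
  · exact absurd (k1.trans k2.symm) e12
  · exact Or.inl (k3.trans k1.symm)
  · exact Or.inr (Or.inl (k3.trans k2.symm))
  · exact Or.inr (Or.inl (k3.trans k2.symm))
  · exact Or.inl (k3.trans k1.symm)
  · exact absurd (k1.trans k2.symm) e12
  · exact absurd (k1.trans k2.symm) e12

end Pool.Agent.Helper81.MA
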